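import Mathlib
import Pool.Agent.V5helper51.MW.Stm
import Pool.Agent.H398R2.BA1

/-!
# Project MW, job MIN, part 1: the pieces
-/

set_option autoImplicit false

namespace Pool.Agent.V5helper44.MW

open Finset
open Pool.Agent.V5helper51.MW
open Pool.Agent.V5helper51.CM (Sf Bw)

lemma Wn_nonneg (G : ℕ → ℂ) (N Y : ℕ) (γ : ℝ) : 0 ≤ Wn G N Y γ := by
  unfold Wn
  exact Finset.sum_nonneg fun _ _ => by positivity

lemma Wn_smul (c : ℂ) (G : ℕ → ℂ) (N Y : ℕ) (γ : ℝ) :
    Wn (fun n => c * G n) N Y γ = ‖c‖ ^ 2 * Wn G N Y γ := by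
  unfold Wn
  rw [Finset.mul_sum]
  apply Finset.sum_congr rfl
  intro m _
  have h1 : Bw (fun n => c * G n) N Y γ m = c * Bw G N Y γ m := by
    unfold Bw
    rw [Finset.mul_sum]
    apply Finset.sum_congr rfl
    intro l _
    ring
  rw [h1, norm_mul, mul_pow]

lemma Wn_zero (N Y : ℕ) (γ : ℝ) : Wn (fun _ => 0) N Y γ = 0 := by
  have h := Wn_smul 0 (fun _ => 0) N Y γ
  simp only [zero_mul, norm_zero] at h
  rw [h]
  norm_num

lemma Wn_add (h2 : S_ELM2) (G H : ℕ → ℂ) (N Y : ℕ) (γ : ℝ) :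
    Wn (fun n => G n + H n) N Y γ ≤ 2 * (Wn G N Y γ + Wn H N Y γ) := by
  have h := h2 2 ![G, H] N Y γ
  have e1 : (fun n => ∑ i, (![G, H] : Fin 2 → ℕ → ℂ) i n) = fun n => G n + H n := by
    funext n
    simp
  rw [e1] at h
  simpa using h

/-- moments of the divisor function -/
lemma div_moment (k : ℕ) : ∃ E : ℕ, ∀ Y : ℕ, ∑ n ∈ Icc 1 Y, (n.divisors.card : ℝ) ^ k ≤ Y * (1 + Real.log Y) ^ E := by
  refine ⟨2 ^ k, fun Y => ?_⟩
  calc ∑ n ∈ Icc 1 Y, (n.divisors.card : ℝ) ^ k ≤ ∑ n ∈ Icc 1 Y, (Y : ℝ) * ((n.divisors.card : ℝ) ^ k / n) := by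
        apply Finset.sum_le_sum
        intro n hn
        rw [Finset.mem_Icc] at hn
        have hn0 : (0 : ℝ) < n := by exact_mod_cast hn.1
        have hnY : (n : ℝ) ≤ Y := by exact_mod_cast hn.2
        rw [mul_div_assoc', le_div_iff₀ hn0, mul_comm]
        exact mul_le_mul_of_nonneg_right hnY (by positivity)
    _ = Y * ∑ n ∈ Icc 1 Y, ((n.divisors.card : ℝ) ^ k / n) := by rw [Finset.mul_sum]
    _ ≤ Y * (1 + Real.log Y) ^ (2 ^ k) :=
        mul_le_mul_of_nonneg_left (Pool.Agent.H398R2.BV.sum_card_pow_div _ _) (by positivity)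

lemma cv_smul (c c' : ℂ) (α β : ℕ → ℂ) (n : ℕ) :
    cv (fun d => c * α d) (fun m => c' * β m) n = (c * c') * cv α β n := by
  unfold cv
  rw [Finset.mul_sum]
  apply Finset.sum_congr rfl
  intro d _
  ring

/-- the weight of a type I piece -/
noncomputable def wt (lg : Bool) (n : ℕ) : ℝ := if lg then Real.log n else 1

lemma wt_nonneg (lg : Bool) (n : ℕ) : 0 ≤ wt lg n := by
  unfold wt
  split_ifs
  · exact Real.log_natCast_nonneg n
  · norm_num

lemma wt_mono (lg : Bool) : Monotone (wt lg) := by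
  intro m n h
  unfold wt
  split_ifs
  · rcases Nat.eq_zero_or_pos m with h0 | h0
    · rw [h0]
      simp only [Nat.cast_zero, Real.log_zero]
      exact Real.log_natCast_nonneg n
    · apply Real.log_le_log (by exact_mod_cast h0)
      exact_mod_cast h
  · exact le_rfl

lemma wt_le (lg : Bool) {n N : ℕ} (h : n ≤ N) : wt lg n ≤ 1 + Real.log N := by
  refine (wt_mono lg h).trans ?_
  have hl : 0 ≤ Real.log (N : ℝ) := Real.log_natCast_nonneg N
  unfold wt
  split_ifs <;> linarith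

/-- the type I part of a decomposition -/
noncomputable def WW (z : ℕ) (lg : Bool) (n : ℕ) : ℂ := if z < n then (wt lg n : ℂ) else 0

lemma WW_norm (z : ℕ) (lg : Bool) {n N : ℕ} (h : n ≤ N) : ‖WW z lg n‖ ≤ 1 + Real.log N := by
  unfold WW
  split_ifs
  · rw [Complex.norm_real, Real.norm_eq_abs, abs_of_nonneg (wt_nonneg _ _)]
    exact wt_le lg h
  · rw [norm_zero]
    have hl : 0 ≤ Real.log (N : ℝ) := Real.log_natCast_nonneg N
    linarith

/-- a type I piece -/
lemma typeI (hE1 : S_ELM1) (hE2 : S_ELM2) (hE3 : S_ELM3) {C1 : ℝ}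
    (hT1 : ∀ (N D Y V : ℕ) (Q γ : ℝ) (α : ℕ → ℂ) (w : ℕ → ℝ), 2 ≤ N → 1 ≤ Q → 1 ≤ D → D ≤ N →
      1 ≤ Y → (D : ℝ) * Q ≤ (Y : ℝ) ^ 2 → (D : ℝ) ^ 2 * Q ≤ N * Y → Y ^ 2 ≤ N → Mnr Q Y γ →
      (∀ d, α d ≠ 0 → 1 ≤ d ∧ d ≤ D) → (∀ d, ‖α d‖ ≤ 1) → Monotone w → (∀ n, 0 ≤ w n) → w N ≤ 1 →
      Wn (cv α (fun n => if V < n then (w n : ℂ) else 0)) N Y γ ≤ C1 * (1 + Real.log N) ^ 2 * (N * (Y : ℝ) ^ 2) / Q)
    {E : ℕ} (hE : ∀ Y : ℕ, ∑ n ∈ Icc 1 Y, (n.divisors.card : ℝ) ^ 22 ≤ Y * (1 + Real.log Y) ^ E)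
    {N z Y : ℕ} {Q γ : ℝ} (K : ℕ) (hN : 2 ≤ N) (hL : 1 ≤ Real.log N) (hQ : 1 ≤ Q) (hD1 : 1 ≤ N / z) (hY : 1 ≤ Y)
    (hD2 : ((N / z : ℕ) : ℝ) * Q ≤ (Y : ℝ) ^ 2) (hD3 : ((N / z : ℕ) : ℝ) ^ 2 * Q ≤ N * Y) (hYN : Y ^ 2 ≤ N)
    (hM : Mnr Q Y γ) (a : ℕ → ℂ) (lg : Bool)
    (ha : ∀ d, ‖a d‖ ≤ 20 * (d.divisors.card : ℝ) ^ 5 * (1 + Real.log N)) :
    Wn (cv a (WW z lg)) N Y γ ≤
      2 * ((20 * Real.log N ^ K * (1 + Real.log N) ^ 2) ^ 2 * (C1 * (1 + Real.log N) ^ 2 * (N * (Y : ℝ) ^ 2) / Q) +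
        (Y : ℝ) ^ 2 * (400 * (1 + Real.log N) ^ 4 * (N * (1 + Real.log N) ^ E) / Real.log N ^ (2 * K))) := by
  classical
  set L := Real.log N with hLdef
  set D := N / z with hD
  have hL0 : 0 < L := by linarith
  have hz0 : 0 < z := by
    rcases Nat.eq_zero_or_pos z with h | h
    · rw [hD, h] at hD1; simp at hD1
    · exact h
  set A : ℝ := 20 * L ^ K * (1 + L) with hA
  have hA0 : 0 < A := by positivity
  set α : ℕ → ℂ := fun d => if 1 ≤ d ∧ d ≤ D ∧ (d.divisors.card : ℝ) ^ 5 ≤ L ^ K then a d / A else 0 with hα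
  set a2 : ℕ → ℂ := fun d => if 1 ≤ d ∧ d ≤ D ∧ ¬ (d.divisors.card : ℝ) ^ 5 ≤ L ^ K then a d else 0 with ha2
  set w : ℕ → ℝ := fun n => wt lg n / (1 + L) with hw
  have h1L : 0 < 1 + L := by linarith
  -- the decomposition
  have hdec : ∀ n ∈ Icc 1 N, cv a (WW z lg) n =
      ((A * (1 + L) : ℝ) : ℂ) * cv α (fun n => if z < n then (w n : ℂ) else 0) n + cv a2 (WW z lg) n := by
    intro n hn
    rw [Finset.mem_Icc] at hn
    unfold cv
    rw [Finset.mul_sum, ← Finset.sum_add_distrib]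
    apply Finset.sum_congr rfl
    intro d hd
    rw [Nat.mem_divisors] at hd
    have hd1 : 1 ≤ d := Nat.pos_of_dvd_of_pos hd.1 (by omega)
    unfold WW
    beta_reduce
    by_cases hzn : z < n / d
    · rw [if_pos hzn, if_pos hzn]
      have hdD : d ≤ D := by
        rw [hD, Nat.le_div_iff_mul_le hz0]
        calc d * z ≤ d * (n / d) := Nat.mul_le_mul_left _ hzn.le
          _ ≤ n := Nat.mul_div_le n d
          _ ≤ N := hn.2
      simp only [hα, ha2, hw]
      by_cases hc : (d.divisors.card : ℝ) ^ 5 ≤ L ^ K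
      · rw [if_pos ⟨hd1, hdD, hc⟩, if_neg (by tauto)]
        push_cast
        have e1 : (A : ℂ) ≠ 0 := by exact_mod_cast hA0.ne'
        have e2 : (1 + (L : ℂ)) ≠ 0 := by exact_mod_cast h1L.ne'
        field_simp
        ring
      · rw [if_neg (by tauto), if_pos ⟨hd1, hdD, hc⟩]
        ring
    · rw [if_neg hzn, if_neg hzn]
      ring
  have h1 := hE3 _ _ N Y γ hdec
  rw [h1]
  refine (Wn_add hE2 _ _ N Y γ).trans ?_
  rw [Wn_smul]
  have hb1 : ‖((A * (1 + L) : ℝ) : ℂ)‖ ^ 2 = (20 * L ^ K * (1 + L) ^ 2) ^ 2 := by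
    rw [Complex.norm_real, Real.norm_eq_abs, abs_of_nonneg (by positivity), hA]
    ring
  rw [hb1]
  have hα1 : ∀ d, α d ≠ 0 → 1 ≤ d ∧ d ≤ D := by
    intro d hd
    simp only [hα] at hd
    split_ifs at hd with h
    · exact ⟨h.1, h.2.1⟩
    · exact absurd rfl hd
  have hα2 : ∀ d, ‖α d‖ ≤ 1 := by
    intro d
    simp only [hα]
    split_ifs with h
    · rw [norm_div, Complex.norm_real, Real.norm_eq_abs, abs_of_pos hA0, div_le_one hA0]
      calc ‖a d‖ ≤ 20 * (d.divisors.card : ℝ) ^ 5 * (1 + L) := ha d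
        _ ≤ 20 * L ^ K * (1 + L) := by
            have := h.2.2
            gcongr
        _ = A := rfl
    · rw [norm_zero]; norm_num
  have hwm : Monotone w := by
    intro m n h
    simp only [hw]
    exact div_le_div_of_nonneg_right (wt_mono lg h) h1L.le
  have hw0 : ∀ n, 0 ≤ w n := fun n => by simp only [hw]; exact div_nonneg (wt_nonneg _ _) h1L.le
  have hwN : w N ≤ 1 := by
    simp only [hw]
    rw [div_le_one h1L]
    exact wt_le lg le_rfl
  have hDN : D ≤ N := Nat.div_le_self _ _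
  have h3 := hT1 N D Y z Q γ α w hN hQ hD1 hDN hY hD2 hD3 hYN hM hα1 hα2 hwm hw0 hwN
  -- the second part
  have h4 : Wn (cv a2 (WW z lg)) N Y γ ≤
      (Y : ℝ) ^ 2 * (400 * (1 + L) ^ 4 * (N * (1 + L) ^ E) / L ^ (2 * K)) := by
    refine (hE1 _ N Y γ).trans ?_
    apply mul_le_mul_of_nonneg_left _ (by positivity)
    have hpt : ∀ n ∈ Icc 1 N, ‖cv a2 (WW z lg) n‖ ^ 2 ≤ 400 * (1 + L) ^ 4 / L ^ (2 * K) * (n.divisors.card : ℝ) ^ 22 := by
      intro n hn
      rw [Finset.mem_Icc] at hn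
      have h5 : ‖cv a2 (WW z lg) n‖ ≤ 20 * (1 + L) ^ 2 / L ^ K * (n.divisors.card : ℝ) ^ 11 := by
        unfold cv
        refine (norm_sum_le _ _).trans ?_
        calc ∑ d ∈ n.divisors, ‖a2 d * WW z lg (n / d)‖
            ≤ ∑ _d ∈ n.divisors, 20 * (1 + L) ^ 2 / L ^ K * (n.divisors.card : ℝ) ^ 10 := by
              apply Finset.sum_le_sum
              intro d hd
              have hd' := Nat.mem_divisors.mp hd
              have hcard : (d.divisors.card : ℝ) ≤ n.divisors.card := by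
                exact_mod_cast Finset.card_le_card (Nat.divisors_subset_of_dvd hd'.2 hd'.1)
              rw [norm_mul]
              have h6 : ‖WW z lg (n / d)‖ ≤ 1 + L := WW_norm z lg ((Nat.div_le_self _ _).trans hn.2)
              have h7 : ‖a2 d‖ ≤ 20 * (1 + L) / L ^ K * (n.divisors.card : ℝ) ^ 10 := by
                simp only [ha2]
                split_ifs with h
                · have h8 : L ^ K ≤ (d.divisors.card : ℝ) ^ 5 := le_of_lt (not_le.mp h.2.2)
                  have hLK : 0 < L ^ K := by positivity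
                  calc ‖a d‖ ≤ 20 * (d.divisors.card : ℝ) ^ 5 * (1 + L) := ha d
                    _ ≤ 20 * (d.divisors.card : ℝ) ^ 5 * (1 + L) * ((d.divisors.card : ℝ) ^ 5 / L ^ K) := by
                        apply le_mul_of_one_le_right (by positivity)
                        rwa [one_le_div hLK]
                    _ = 20 * (1 + L) / L ^ K * (d.divisors.card : ℝ) ^ 10 := by ring
                    _ ≤ _ := by gcongr
                · rw [norm_zero]
                  positivity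
              calc ‖a2 d‖ * ‖WW z lg (n / d)‖ ≤ (20 * (1 + L) / L ^ K * (n.divisors.card : ℝ) ^ 10) * (1 + L) :=
                    mul_le_mul h7 h6 (norm_nonneg _) (by positivity)
                _ = _ := by ring
          _ = 20 * (1 + L) ^ 2 / L ^ K * (n.divisors.card : ℝ) ^ 11 := by
              rw [Finset.sum_const, nsmul_eq_mul]
              ring
      calc ‖cv a2 (WW z lg) n‖ ^ 2 ≤ (20 * (1 + L) ^ 2 / L ^ K * (n.divisors.card : ℝ) ^ 11) ^ 2 :=
            pow_le_pow_left₀ (norm_nonneg _) h5 2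
        _ = _ := by
            rw [mul_comm 2 K, pow_mul L K 2]
            ring
    calc ∑ l ∈ Icc 1 N, ‖cv a2 (WW z lg) l‖ ^ 2
        ≤ ∑ l ∈ Icc 1 N, 400 * (1 + L) ^ 4 / L ^ (2 * K) * (l.divisors.card : ℝ) ^ 22 := Finset.sum_le_sum hpt
      _ = 400 * (1 + L) ^ 4 / L ^ (2 * K) * ∑ l ∈ Icc 1 N, (l.divisors.card : ℝ) ^ 22 := by rw [Finset.mul_sum]
      _ ≤ 400 * (1 + L) ^ 4 / L ^ (2 * K) * (N * (1 + L) ^ E) := by
          apply mul_le_mul_of_nonneg_left (hE N) (by positivity)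
      _ = _ := by ring
  have h5 : 0 ≤ (20 * L ^ K * (1 + L) ^ 2) ^ 2 := by positivity
  have h6 := mul_le_mul_of_nonneg_left h3 h5
  linarith

/-- a type II piece -/
lemma typeII (hE2 : S_ELM2) {C2 : ℝ} (hC2 : 1 ≤ C2)
    (hT2 : ∀ (N M Y : ℕ) (Q γ Sa Sb : ℝ) (α β : ℕ → ℂ), 2 ≤ N → 1 ≤ Q → Q ≤ M → (M : ℝ) * Q ≤ Y →
      Y ≤ N → Mnr Q Y γ → (∀ m, α m ≠ 0 → M ≤ m ∧ m < 2 * M) → ∑ m ∈ range (2 * M), ‖α m‖ ^ 2 ≤ Sa * M →
      ∑ k ∈ Icc 1 (N / M), ‖β k‖ ^ 2 ≤ Sb * (N / M) → 0 ≤ Sb →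
      Wn (cv α β) N Y γ ≤ C2 * Sa * Sb * (N * (Y : ℝ) ^ 2) * Real.log N / Q)
    {E : ℕ} (hE : ∀ Y : ℕ, ∑ n ∈ Icc 1 Y, (n.divisors.card : ℝ) ^ 10 ≤ Y * (1 + Real.log Y) ^ E)
    {N z P Y : ℕ} {γ : ℝ} (hN : 2 ≤ N) (hL : 1 ≤ Real.log N) (hP : 1 ≤ P)
    (hzP : (z : ℝ) * P ≤ Y) (hYN : Y ≤ N) (hM : Mnr P Y γ) (α β : ℕ → ℂ)
    (hα : ∀ m, α m ≠ 0 → P < m ∧ m ≤ z) (hα1 : ∀ m, ‖α m‖ ≤ 1 + Real.log N)
    (hβ : ∀ l, ‖β l‖ ≤ 20 * (l.divisors.card : ℝ) ^ 5 * (1 + Real.log N)) :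
    Wn (cv α β) N Y γ ≤ ((Nat.log 2 z + 1 : ℕ) : ℝ) ^ 2 *
      (C2 * (1 + Real.log N) ^ 2 * (400 * (1 + Real.log N) ^ (2 + E)) * (N * (Y : ℝ) ^ 2) * Real.log N / P) := by
  classical
  set L := Real.log N with hLdef
  set J := Nat.log 2 z + 1 with hJ
  have hzJ : z < 2 ^ J := Nat.lt_pow_succ_log_self (by norm_num) z
  have hL0 : 0 < L := by linarith
  have hP0 : (0 : ℝ) < P := by exact_mod_cast hP
  have hP1 : (1 : ℝ) ≤ P := by exact_mod_cast hP
  set αj : ℕ → ℕ → ℂ := fun j m => if P * 2 ^ j ≤ m ∧ m < P * 2 ^ (j + 1) then α m else 0 with hαj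
  have hsum : ∀ m, α m = ∑ j : Fin J, αj j m := by
    intro m
    rw [Fin.sum_univ_eq_sum_range (fun j => αj j m) J]
    by_cases h0 : α m = 0
    · rw [h0]
      symm
      apply Finset.sum_eq_zero
      intro j _
      simp only [hαj, h0]
      split_ifs <;> rfl
    have hm := hα m h0
    have h1 : ∀ j, αj j m = (if m < P * 2 ^ (j + 1) then α m else 0) - (if m < P * 2 ^ j then α m else 0) := by
      intro j
      simp only [hαj]
      have hle : P * 2 ^ j ≤ P * 2 ^ (j + 1) := by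
        apply Nat.mul_le_mul_left
        exact Nat.pow_le_pow_right (by norm_num) (by omega)
      by_cases ha : m < P * 2 ^ j
      · rw [if_neg (by omega), if_pos (by omega), if_pos ha, sub_self]
      · by_cases hb : m < P * 2 ^ (j + 1)
        · rw [if_pos ⟨by omega, hb⟩, if_pos hb, if_neg ha, sub_zero]
        · rw [if_neg (by tauto), if_neg hb, if_neg ha, sub_zero]
    rw [Finset.sum_congr rfl (fun j _ => h1 j),
      Finset.sum_range_sub (fun j => if m < P * 2 ^ j then α m else 0) J]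
    have h2 : m < P * 2 ^ J := by
      calc m ≤ z := hm.2
        _ < 2 ^ J := hzJ
        _ ≤ P * 2 ^ J := Nat.le_mul_of_pos_left _ hP
    rw [if_pos h2, if_neg (by simp; omega), sub_zero]
  have hcv : cv α β = fun n => ∑ j : Fin J, cv (αj j) β n := by
    funext n
    unfold cv
    rw [Finset.sum_comm]
    apply Finset.sum_congr rfl
    intro d _
    rw [hsum d, Finset.sum_mul]
  set B : ℝ := C2 * (1 + L) ^ 2 * (400 * (1 + L) ^ (2 + E)) * (N * (Y : ℝ) ^ 2) * L / P with hB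
  have hB0 : 0 ≤ B := by
    rw [hB]
    have : 0 ≤ C2 := by linarith
    positivity
  have hterm : ∀ j : Fin J, Wn (cv (αj j) β) N Y γ ≤ B := by
    intro j
    set M := P * 2 ^ (j : ℕ) with hMdef
    have h2M : P * 2 ^ ((j : ℕ) + 1) = 2 * M := by rw [hMdef, pow_succ]; ring
    have hM1 : 1 ≤ M := Nat.mul_pos hP (by positivity)
    have hM0 : (0 : ℝ) < M := by exact_mod_cast hM1
    by_cases hMz : M ≤ z
    · have hPM : (P : ℝ) ≤ M := by
        have : P ≤ M := Nat.le_mul_of_pos_right _ (by positivity)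
        exact_mod_cast this
      have hMQ : (M : ℝ) * P ≤ Y := by
        refine le_trans ?_ hzP
        have : (M : ℝ) ≤ z := by exact_mod_cast hMz
        gcongr
      have hsupp : ∀ m, αj j m ≠ 0 → M ≤ m ∧ m < 2 * M := by
        intro m hm
        simp only [hαj] at hm
        split_ifs at hm with h
        · rw [h2M] at h
          exact h
        · exact absurd rfl hm
      have hSa : ∑ m ∈ range (2 * M), ‖αj j m‖ ^ 2 ≤ (1 + L) ^ 2 * M := by
        have h1 : ∀ m ∈ range (2 * M), ‖αj j m‖ ^ 2 ≤ if M ≤ m then (1 + L) ^ 2 else 0 := by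
          intro m _
          by_cases h0 : αj j m = 0
          · rw [h0, norm_zero, zero_pow (by norm_num)]
            split_ifs
            · exact sq_nonneg _
            · exact le_rfl
          · rw [if_pos (hsupp m h0).1]
            apply pow_le_pow_left₀ (norm_nonneg _)
            simp only [hαj]
            split_ifs
            · exact hα1 m
            · rw [norm_zero]; positivity
        calc ∑ m ∈ range (2 * M), ‖αj j m‖ ^ 2 ≤ ∑ m ∈ range (2 * M), (if M ≤ m then (1 + L) ^ 2 else 0) :=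
              Finset.sum_le_sum h1
          _ = ((range (2 * M)).filter (fun m => M ≤ m)).card * (1 + L) ^ 2 := by
              rw [← Finset.sum_filter, Finset.sum_const, nsmul_eq_mul]
          _ = (1 + L) ^ 2 * M := by
              have : (range (2 * M)).filter (fun m => M ≤ m) = Ico M (2 * M) := by
                ext m
                rw [Finset.mem_filter, Finset.mem_range, Finset.mem_Ico]
                tauto
              rw [this, Nat.card_Ico, mul_comm]
              congr 2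
              omega
      have hSb : ∑ k ∈ Icc 1 (N / M), ‖β k‖ ^ 2 ≤ (400 * (1 + L) ^ (2 + E)) * (N / M) := by
        have hNM : ((N / M : ℕ) : ℝ) ≤ N / M := Nat.cast_div_le
        have hlog : Real.log ((N / M : ℕ) : ℝ) ≤ L := by
          rcases Nat.eq_zero_or_pos (N / M) with h | h
          · rw [h]
            simp only [Nat.cast_zero, Real.log_zero]
            exact hL0.le
          · apply Real.log_le_log (by exact_mod_cast h)
            exact_mod_cast Nat.div_le_self _ _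
        have hlog0 : 0 ≤ Real.log ((N / M : ℕ) : ℝ) := Real.log_natCast_nonneg _
        calc ∑ k ∈ Icc 1 (N / M), ‖β k‖ ^ 2 ≤ ∑ k ∈ Icc 1 (N / M), 400 * (1 + L) ^ 2 * (k.divisors.card : ℝ) ^ 10 := by
              apply Finset.sum_le_sum
              intro k _
              calc ‖β k‖ ^ 2 ≤ (20 * (k.divisors.card : ℝ) ^ 5 * (1 + L)) ^ 2 :=
                    pow_le_pow_left₀ (norm_nonneg _) (hβ k) 2
                _ = _ := by ring
          _ = 400 * (1 + L) ^ 2 * ∑ k ∈ Icc 1 (N / M), (k.divisors.card : ℝ) ^ 10 := by rw [Finset.mul_sum]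
          _ ≤ 400 * (1 + L) ^ 2 * (((N / M : ℕ) : ℝ) * (1 + Real.log ((N / M : ℕ) : ℝ)) ^ E) :=
              mul_le_mul_of_nonneg_left (hE _) (by positivity)
          _ ≤ 400 * (1 + L) ^ 2 * ((N / M) * (1 + L) ^ E) := by gcongr
          _ = _ := by rw [pow_add]; ring
      exact hT2 N M Y P γ ((1 + L) ^ 2) (400 * (1 + L) ^ (2 + E)) (αj j) β hN hP1 hPM hMQ hYN hM hsupp hSa hSb
        (by positivity)
    · have h0 : cv (αj j) β = fun _ => 0 := by
        funext n
        unfold cv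
        apply Finset.sum_eq_zero
        intro d _
        have : αj j d = 0 := by
          simp only [hαj]
          split_ifs with h
          · by_contra hne
            have := (hα d hne).2
            rw [← hMdef] at h
            omega
          · rfl
        rw [this, zero_mul]
      rw [h0, Wn_zero]
      exact hB0
  rw [hcv]
  refine (hE2 J (fun j => cv (αj j) β) N Y γ).trans ?_
  calc (J : ℝ) * ∑ i : Fin J, Wn (cv (αj i) β) N Y γ ≤ J * ∑ _i : Fin J, B := by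
        gcongr with i _
        exact hterm i
    _ = (J : ℝ) ^ 2 * B := by
        rw [Finset.sum_const, Finset.card_univ, Fintype.card_fin, nsmul_eq_mul]
        ring

end Pool.Agent.V5helper44.MW
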