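import Mathlib
import Pool.Agent.V5helper44.MW.MINa

/-!
# Project MW, job MIN: the assembly on the minor arcs
-/

set_option autoImplicit false

namespace Pool.Agent.V5helper44.MW

open Finset
open Pool.Agent.V5helper51.MW
open Pool.Agent.V5helper51.CM (Sf Bw)

/-- a power of the logarithm is smaller than a power -/
lemma ev_log' (C : ℕ) {s : ℝ} (hs : 0 < s) (b : ℝ) : ∀ᶠ N : ℕ in Filter.atTop,
    b ≤ Real.log N ∧ Real.log N ^ C ≤ (N : ℝ) ^ s := by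
  have t1 : Filter.Tendsto (fun N : ℕ => Real.log N) Filter.atTop Filter.atTop :=
    Real.tendsto_log_atTop.comp tendsto_natCast_atTop_atTop
  have t2 := (isLittleO_log_rpow_rpow_atTop (C : ℝ) hs).bound one_pos
  have t3 := (tendsto_natCast_atTop_atTop (R := ℝ)).eventually t2
  filter_upwards [t1.eventually_ge_atTop b, t3, t1.eventually_ge_atTop 0] with N h1 h2 h3
  refine ⟨h1, ?_⟩
  rw [one_mul, Real.rpow_natCast, Real.norm_of_nonneg (by positivity),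
    Real.norm_of_nonneg (by positivity)] at h2
  exact h2

/-- the decomposed function -/
noncomputable def Dd {g : ℕ → ℂ} {N z P : ℕ} (dec : Dec g N z P) (n : ℕ) : ℂ :=
  ∑ i, (cv (dec.a i) (WW z (dec.lg i)) n + cv (dec.α i) (dec.β i) n)

lemma WW_eq (z : ℕ) (lg : Bool) :
    (fun n : ℕ => if z < n then (if lg then (Real.log n : ℂ) else 1) else 0) = WW z lg := by
  funext n
  unfold WW wt
  split_ifs <;> simp

lemma Dd_eq {g : ℕ → ℂ} {N z P : ℕ} (dec : Dec g N z P) {n : ℕ} (h1 : P ^ 6 < n) (h2 : n ≤ N) : g n = Dd dec n := by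
  rw [dec.eq n h1 h2]
  unfold Dd
  apply Finset.sum_congr rfl
  intro i _
  rw [WW_eq]

lemma cv_bound (α β : ℕ → ℂ) {A B : ℝ} (hA : 0 ≤ A) {n : ℕ} (h1 : ∀ d ∈ n.divisors, ‖α d‖ ≤ A)
    (h2 : ∀ d ∈ n.divisors, ‖β (n / d)‖ ≤ B) : ‖cv α β n‖ ≤ n * (A * B) := by
  rcases Nat.eq_zero_or_pos n with h0 | h0
  · rw [h0]
    unfold cv
    simp
  have hB : 0 ≤ B := (norm_nonneg _).trans (h2 1 (by simp; omega))
  unfold cv
  refine (norm_sum_le _ _).trans ?_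
  calc ∑ d ∈ n.divisors, ‖α d * β (n / d)‖ ≤ ∑ _d ∈ n.divisors, A * B := by
        apply Finset.sum_le_sum
        intro d hd
        rw [norm_mul]
        exact mul_le_mul (h1 d hd) (h2 d hd) (norm_nonneg _) hA
    _ = n.divisors.card * (A * B) := by rw [Finset.sum_const, nsmul_eq_mul]
    _ ≤ n * (A * B) := by
        apply mul_le_mul_of_nonneg_right _ (mul_nonneg hA hB)
        exact_mod_cast Nat.card_divisors_le_self n

lemma tau_le {n d : ℕ} (hd : d ∈ n.divisors) : (d.divisors.card : ℝ) ≤ n := by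
  have h1 : d.divisors.card ≤ d := Nat.card_divisors_le_self d
  have h2 : d ≤ n := Nat.divisor_le hd
  exact_mod_cast h1.trans h2

lemma Dd_bound {g : ℕ → ℂ} {N z P : ℕ} (dec : Dec g N z P) {n : ℕ} (h2 : n ≤ N) :
    ‖Dd dec n‖ ≤ 8000 * (n : ℝ) ^ 6 * (1 + Real.log N) ^ 2 := by
  set L := Real.log N with hL
  have hL0 : 0 ≤ L := Real.log_natCast_nonneg N
  have hk : (dec.k : ℝ) ≤ 200 := by exact_mod_cast dec.hk
  have hdiv : ∀ d ∈ n.divisors, n / d ∈ n.divisors := by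
    intro d hd
    rw [Nat.mem_divisors] at hd ⊢
    exact ⟨Nat.div_dvd_of_dvd hd.1, hd.2⟩
  have hA : ∀ i, ‖cv (dec.a i) (WW z (dec.lg i)) n‖ ≤ n * ((20 * (n : ℝ) ^ 5 * (1 + L)) * (1 + L)) := by
    intro i
    apply cv_bound _ _ (by positivity)
    · intro d hd
      refine (dec.ha i d).trans ?_
      have := tau_le hd
      gcongr
    · intro d _
      exact WW_norm z _ ((Nat.div_le_self _ _).trans h2)
  have hB : ∀ i, ‖cv (dec.α i) (dec.β i) n‖ ≤ n * ((1 + L) * (20 * (n : ℝ) ^ 5 * (1 + L))) := by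
    intro i
    apply cv_bound _ _ (by positivity)
    · intro d _
      exact dec.hα1 i d
    · intro d hd
      refine (dec.hβ i _).trans ?_
      have := tau_le (hdiv d hd)
      gcongr
  unfold Dd
  refine (norm_sum_le _ _).trans ?_
  calc ∑ i, ‖cv (dec.a i) (WW z (dec.lg i)) n + cv (dec.α i) (dec.β i) n‖
      ≤ ∑ _i : Fin dec.k, 40 * (n : ℝ) ^ 6 * (1 + L) ^ 2 := by
        apply Finset.sum_le_sum
        intro i _
        refine (norm_add_le _ _).trans ?_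
        refine (add_le_add (hA i) (hB i)).trans (le_of_eq ?_)
        ring
    _ = dec.k * (40 * (n : ℝ) ^ 6 * (1 + L) ^ 2) := by
        rw [Finset.sum_const, Finset.card_univ, Fintype.card_fin, nsmul_eq_mul]
    _ ≤ 200 * (40 * (n : ℝ) ^ 6 * (1 + L) ^ 2) := by gcongr
    _ = _ := by ring

/-- the small numbers -/
lemma small_part (hE1 : S_ELM1) {g : ℕ → ℂ} {N z P : ℕ} (dec : Dec g N z P)
    (hg : ∀ n ∈ Icc 1 N, ‖g n‖ ≤ Real.log N) (Y : ℕ) (γ : ℝ) :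
    Wn (fun n => if n ≤ P ^ 6 then g n - Dd dec n else 0) N Y γ ≤
      (Y : ℝ) ^ 2 * ((P : ℝ) ^ 6 * (Real.log N + 8000 * (P : ℝ) ^ 36 * (1 + Real.log N) ^ 2) ^ 2) := by
  set L := Real.log N with hL
  have hL0 : 0 ≤ L := Real.log_natCast_nonneg N
  refine (hE1 _ N Y γ).trans ?_
  apply mul_le_mul_of_nonneg_left _ (by positivity)
  set B : ℝ := L + 8000 * (P : ℝ) ^ 36 * (1 + L) ^ 2 with hB
  have hB0 : 0 ≤ B := by positivity
  calc ∑ l ∈ Icc 1 N, ‖(if l ≤ P ^ 6 then g l - Dd dec l else 0)‖ ^ 2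
      ≤ ∑ l ∈ Icc 1 N, (if l ≤ P ^ 6 then B ^ 2 else 0) := by
        apply Finset.sum_le_sum
        intro l hl
        by_cases h : l ≤ P ^ 6
        · rw [if_pos h, if_pos h]
          apply pow_le_pow_left₀ (norm_nonneg _)
          have h1 := hg l hl
          have h2 := Dd_bound dec (Finset.mem_Icc.mp hl).2
          have h3 : (l : ℝ) ≤ (P : ℝ) ^ 6 := by exact_mod_cast h
          have h4 : (l : ℝ) ^ 6 ≤ (P : ℝ) ^ 36 := by
            calc (l : ℝ) ^ 6 ≤ ((P : ℝ) ^ 6) ^ 6 := by gcongr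
              _ = (P : ℝ) ^ 36 := by ring
          calc ‖g l - Dd dec l‖ ≤ ‖g l‖ + ‖Dd dec l‖ := norm_sub_le _ _
            _ ≤ L + 8000 * (l : ℝ) ^ 6 * (1 + L) ^ 2 := add_le_add h1 h2
            _ ≤ B := by rw [hB]; gcongr
        · rw [if_neg h, if_neg h, norm_zero, zero_pow (by norm_num)]
    _ = ((Icc 1 N).filter (fun l => l ≤ P ^ 6)).card * B ^ 2 := by
        rw [← Finset.sum_filter, Finset.sum_const, nsmul_eq_mul]
    _ ≤ (P : ℝ) ^ 6 * B ^ 2 := by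
        apply mul_le_mul_of_nonneg_right _ (by positivity)
        have h1 : ((Icc 1 N).filter (fun l => l ≤ P ^ 6)).card ≤ P ^ 6 := by
          calc ((Icc 1 N).filter (fun l => l ≤ P ^ 6)).card ≤ (Icc 1 (P ^ 6)).card := by
                apply Finset.card_le_card
                intro l hl
                rw [Finset.mem_filter, Finset.mem_Icc] at hl
                rw [Finset.mem_Icc]
                exact ⟨hl.1.1, hl.2⟩
            _ = P ^ 6 := by rw [Nat.card_Icc]; omega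
        exact_mod_cast h1

lemma one_add_le {L : ℝ} (hL : 10 ^ 6 ≤ L) : 1 + L ≤ L ^ 2 := by nlinarith

lemma e_bound {L P : ℝ} {C : ℕ} (hL : 10 ^ 6 ≤ L) (hP1 : 1 ≤ P) (hP : P ≤ L ^ (C + 1)) :
    P ^ 6 * (L + 8000 * P ^ 36 * (1 + L) ^ 2) ^ 2 ≤ L ^ (78 * (C + 1) + 12) := by
  have hL0 : 0 < L := by linarith
  have hL1 : 1 ≤ L := by linarith
  have h1 := one_add_le hL
  have h2 : P ^ 36 ≤ L ^ (36 * (C + 1)) := by
    calc P ^ 36 ≤ (L ^ (C + 1)) ^ 36 := by gcongr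
      _ = _ := by rw [← pow_mul]; congr 1; ring
  have h3 : P ^ 6 ≤ L ^ (6 * (C + 1)) := by
    calc P ^ 6 ≤ (L ^ (C + 1)) ^ 6 := by gcongr
      _ = _ := by rw [← pow_mul]; congr 1; ring
  have h4 : L + 8000 * P ^ 36 * (1 + L) ^ 2 ≤ L ^ (36 * (C + 1) + 6) := by
    have h5 : L ≤ L * L ^ (36 * (C + 1)) * (L ^ 2) ^ 2 := by
      have e1 : 1 ≤ L ^ (36 * (C + 1)) := one_le_pow₀ hL1
      have e2 : 1 ≤ (L ^ 2) ^ 2 := one_le_pow₀ (one_le_pow₀ hL1)
      calc L = L * 1 * 1 := by ring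
        _ ≤ _ := by gcongr
    have h6 : 8000 * P ^ 36 * (1 + L) ^ 2 ≤ L * L ^ (36 * (C + 1)) * (L ^ 2) ^ 2 := by
      have : (8000 : ℝ) ≤ L := by linarith
      gcongr
    calc L + 8000 * P ^ 36 * (1 + L) ^ 2 ≤ 2 * (L * L ^ (36 * (C + 1)) * (L ^ 2) ^ 2) := by linarith
      _ ≤ L * (L * L ^ (36 * (C + 1)) * (L ^ 2) ^ 2) := by
          apply mul_le_mul_of_nonneg_right (by linarith) (by positivity)
      _ = _ := by ring
  calc P ^ 6 * (L + 8000 * P ^ 36 * (1 + L) ^ 2) ^ 2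
      ≤ L ^ (6 * (C + 1)) * (L ^ (36 * (C + 1) + 6)) ^ 2 := by gcongr
    _ = _ := by rw [← pow_mul, ← pow_add]; congr 1; ring

lemma t1_bound {L P X Y C1 : ℝ} {K E U C : ℕ} (hL : 10 ^ 6 ≤ L) (hC0 : 0 ≤ C1) (hC1 : C1 ≤ L) (hX : 0 ≤ X)
    (hP : L ^ C ≤ P) (hC : 2 * K + 15 + (U + 3) ≤ C) (hK : 9 + 2 * E + (U + 3) ≤ 2 * K) :
    2 * ((20 * L ^ K * (1 + L) ^ 2) ^ 2 * (C1 * (1 + L) ^ 2 * (X * Y ^ 2) / P) +
        Y ^ 2 * (400 * (1 + L) ^ 4 * (X * (1 + L) ^ E) / L ^ (2 * K))) ≤ 4 * (X * Y ^ 2 / L ^ (U + 3)) := by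
  have hL0 : 0 < L := by linarith
  have hL1 : 1 ≤ L := by linarith
  have h1 := one_add_le hL
  have h20 : (20 : ℝ) ≤ L := by linarith
  have h400 : (400 : ℝ) ≤ L := by linarith
  have hLC : 0 < L ^ C := by positivity
  have hP0 : 0 < P := by linarith
  have hA : (20 * L ^ K * (1 + L) ^ 2) ^ 2 * (C1 * (1 + L) ^ 2 * (X * Y ^ 2) / P) ≤ X * Y ^ 2 / L ^ (U + 3) := by
    calc (20 * L ^ K * (1 + L) ^ 2) ^ 2 * (C1 * (1 + L) ^ 2 * (X * Y ^ 2) / P)
        ≤ (L * L ^ K * (L ^ 2) ^ 2) ^ 2 * (L * (L ^ 2) ^ 2 * (X * Y ^ 2) / L ^ C) := by gcongr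
      _ = L ^ (2 * K + 15) * (X * Y ^ 2) / L ^ C := by ring
      _ ≤ X * Y ^ 2 / L ^ (U + 3) := by
          rw [div_le_div_iff₀ hLC (by positivity)]
          calc L ^ (2 * K + 15) * (X * Y ^ 2) * L ^ (U + 3) = X * Y ^ 2 * L ^ (2 * K + 15 + (U + 3)) := by
                rw [pow_add L (2 * K + 15) (U + 3)]; ring
            _ ≤ X * Y ^ 2 * L ^ C := by gcongr
  have hB : Y ^ 2 * (400 * (1 + L) ^ 4 * (X * (1 + L) ^ E) / L ^ (2 * K)) ≤ X * Y ^ 2 / L ^ (U + 3) := by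
    calc Y ^ 2 * (400 * (1 + L) ^ 4 * (X * (1 + L) ^ E) / L ^ (2 * K))
        ≤ Y ^ 2 * (L * (L ^ 2) ^ 4 * (X * (L ^ 2) ^ E) / L ^ (2 * K)) := by gcongr
      _ = L ^ (9 + 2 * E) * (X * Y ^ 2) / L ^ (2 * K) := by
          rw [pow_add L 9, pow_mul L 2 E]; ring
      _ ≤ X * Y ^ 2 / L ^ (U + 3) := by
          rw [div_le_div_iff₀ (by positivity) (by positivity)]
          calc L ^ (9 + 2 * E) * (X * Y ^ 2) * L ^ (U + 3) = X * Y ^ 2 * L ^ (9 + 2 * E + (U + 3)) := by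
                rw [pow_add L (9 + 2 * E) (U + 3)]; ring
            _ ≤ X * Y ^ 2 * L ^ (2 * K) := by gcongr
  linarith

lemma t2_bound {L P X Y C2 J : ℝ} {E U C : ℕ} (hL : 10 ^ 6 ≤ L) (hC0 : 0 ≤ C2) (hC2 : C2 ≤ L) (hX : 0 ≤ X)
    (hJ0 : 0 ≤ J) (hJ : J ≤ L ^ 2) (hP : L ^ C ≤ P) (hC : 15 + 2 * E + (U + 3) ≤ C) :
    J ^ 2 * (C2 * (1 + L) ^ 2 * (400 * (1 + L) ^ (2 + E)) * (X * Y ^ 2) * L / P) ≤ X * Y ^ 2 / L ^ (U + 3) := by
  have hL0 : 0 < L := by linarith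
  have hL1 : 1 ≤ L := by linarith
  have h1 := one_add_le hL
  have h400 : (400 : ℝ) ≤ L := by linarith
  have hLC : 0 < L ^ C := by positivity
  have hP0 : 0 < P := by linarith
  calc J ^ 2 * (C2 * (1 + L) ^ 2 * (400 * (1 + L) ^ (2 + E)) * (X * Y ^ 2) * L / P)
      ≤ (L ^ 2) ^ 2 * (L * (L ^ 2) ^ 2 * (L * (L ^ 2) ^ (2 + E)) * (X * Y ^ 2) * L / L ^ C) := by gcongr
    _ = L ^ (15 + 2 * E) * (X * Y ^ 2) / L ^ C := by
        rw [pow_add L 15, pow_add (L ^ 2) 2 E, pow_mul L 2 E]; ring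
    _ ≤ X * Y ^ 2 / L ^ (U + 3) := by
        rw [div_le_div_iff₀ hLC (by positivity)]
        calc L ^ (15 + 2 * E) * (X * Y ^ 2) * L ^ (U + 3) = X * Y ^ 2 * L ^ (15 + 2 * E + (U + 3)) := by
              rw [pow_add L (15 + 2 * E) (U + 3)]; ring
          _ ≤ X * Y ^ 2 * L ^ C := by gcongr

lemma log2_le {N z : ℕ} (hz : z ≤ N) (hz0 : 1 ≤ z) (hL : 10 ^ 6 ≤ Real.log N) :
    ((Nat.log 2 z + 1 : ℕ) : ℝ) ≤ Real.log N ^ 2 := by
  set L := Real.log N with hLd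
  have h1 : 2 ^ Nat.log 2 z ≤ z := Nat.pow_log_le_self 2 (by omega)
  have h2 : (Nat.log 2 z : ℝ) * Real.log 2 ≤ L := by
    rw [← Real.log_pow]
    apply Real.log_le_log (by positivity)
    exact_mod_cast h1.trans hz
  have h3 := Real.log_two_gt_d9
  have h4 : (Nat.log 2 z : ℝ) ≤ 2 * L := by
    have : (Nat.log 2 z : ℝ) * (1 / 2) ≤ (Nat.log 2 z : ℝ) * Real.log 2 := by
      apply mul_le_mul_of_nonneg_left (by linarith) (by positivity)
    linarith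
  push_cast
  nlinarith

theorem min_ (hE1 : S_ELM1) (hE2 : S_ELM2) (hE3 : S_ELM3) (h1 : S_T1) (h2 : S_T2) : S_MIN := by
  intro U
  obtain ⟨C1, hC1, hT1⟩ := h1
  obtain ⟨C2, hC2, hT2⟩ := h2
  obtain ⟨E, hE⟩ := div_moment 22
  obtain ⟨E', hE'⟩ := div_moment 10
  obtain ⟨K, hK⟩ : ∃ K, K = E + U + 6 := ⟨_, rfl⟩
  obtain ⟨C, hC⟩ : ∃ C, C = 2 * K + 15 + (U + 3) + (15 + 2 * E' + (U + 3)) := ⟨_, rfl⟩
  obtain ⟨N0, hN0⟩ := Filter.eventually_atTop.1
    ((ev_log' (78 * (C + 1) + 12 + (U + 3)) (s := 1) one_pos (max (10 ^ 6) (max C1 C2))).and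
      (ev_log' 1 (s := 1 / 3) (by norm_num) 0))
  refine ⟨C, max N0 2, fun N hN z P Y hz hz2 hP1 hP2 hY hYN g hg hdec γ hM => ?_⟩
  obtain ⟨dec⟩ := hdec
  obtain ⟨⟨hLb, hLN⟩, -, hL3⟩ := hN0 N ((le_max_left _ _).trans hN)
  have hN2 : 2 ≤ N := (le_max_right _ _).trans hN
  set L := Real.log N with hLdef
  have hL : 10 ^ 6 ≤ L := (le_max_left _ _).trans hLb
  have hC1L : C1 ≤ L := ((le_max_left _ _).trans (le_max_right _ _)).trans hLb
  have hC2L : C2 ≤ L := ((le_max_right _ _).trans (le_max_right _ _)).trans hLb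
  have hL1 : 1 ≤ L := by linarith
  have hL0 : 0 < L := by linarith
  rw [Real.rpow_one] at hLN
  rw [pow_one] at hL3
  have hN0' : (0 : ℝ) < N := by exact_mod_cast (by omega : 0 < N)
  -- the cube root
  obtain ⟨R, hR⟩ : ∃ R : ℝ, R = (N : ℝ) ^ (1 / 3 : ℝ) := ⟨_, rfl⟩
  have hR0 : 0 < R := by rw [hR]; positivity
  have hR3 : R ^ 3 = N := by
    rw [hR, ← Real.rpow_natCast, ← Real.rpow_mul hN0'.le]
    norm_num
  rw [← hR] at hz2 hY hL3
  have hR1 : 10 ^ 6 ≤ R := hL.trans hL3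
  have hzR : R ≤ z := by
    have h3 : R ^ 3 ≤ (z : ℝ) ^ 3 := by rw [hR3]; exact_mod_cast hz
    exact le_of_pow_le_pow_left₀ (by norm_num) (by positivity) h3
  have hz1 : 1 ≤ z := by
    have : (1 : ℝ) ≤ z := by linarith
    exact_mod_cast this
  have hzN : z ≤ N := by
    have h3 : (z : ℝ) ≤ N := by
      calc (z : ℝ) ≤ 2 * R := hz2
        _ ≤ R ^ 3 := by nlinarith [sq_nonneg R]
        _ = N := hR3
    exact_mod_cast h3
  have hDR : ((N / z : ℕ) : ℝ) ≤ R ^ 2 := by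
    have hz0 : (0 : ℝ) < z := by linarith
    calc ((N / z : ℕ) : ℝ) ≤ N / z := Nat.cast_div_le
      _ ≤ R ^ 3 / R := by rw [hR3]; gcongr
      _ = R ^ 2 := by field_simp
  have hC1' : 1 ≤ C := by omega
  have hLC1 : L ≤ L ^ C := le_self_pow₀ hL1 (by omega)
  have hLC0 : 1 ≤ L ^ C := one_le_pow₀ hL1
  have hPR : (1 : ℝ) ≤ P := hLC0.trans hP1
  have hPn : 1 ≤ P := by exact_mod_cast hPR
  have h2C : L ^ (2 * C) = L ^ C * L ^ C := by rw [two_mul, pow_add]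
  have hYR : R * (L ^ C * L ^ C) ≤ Y := by rw [← h2C]; exact hY
  have hP4 : 2 * (P : ℝ) ≤ L ^ C * L ^ C := by
    calc 2 * (P : ℝ) ≤ 2 * (2 * L ^ C) := by gcongr
      _ = 4 * L ^ C := by ring
      _ ≤ L ^ C * L ^ C := by
          apply mul_le_mul_of_nonneg_right _ (by positivity)
          linarith
  have hRY : R ≤ Y := by
    refine le_trans ?_ hYR
    apply le_mul_of_one_le_right hR0.le
    nlinarith
  have hY1 : 1 ≤ Y := by
    have : (1 : ℝ) ≤ Y := by linarith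
    exact_mod_cast this
  have hY0 : (0 : ℝ) < Y := by exact_mod_cast hY1
  have hPY : 2 * (R * P) ≤ Y := by
    refine le_trans ?_ hYR
    calc 2 * (R * P) = R * (2 * P) := by ring
      _ ≤ R * (L ^ C * L ^ C) := by gcongr
  have hYN' : Y ≤ N := by
    refine le_trans ?_ hYN
    exact Nat.le_self_pow (by norm_num) Y
  have hD1 : 1 ≤ N / z := (Nat.one_le_div_iff hz1).mpr hzN
  have hD2 : ((N / z : ℕ) : ℝ) * P ≤ (Y : ℝ) ^ 2 := by
    calc ((N / z : ℕ) : ℝ) * P ≤ R ^ 2 * P := by gcongr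
      _ = R * (R * P) := by ring
      _ ≤ Y * Y := by
          apply mul_le_mul hRY _ (by positivity) hY0.le
          have : 0 ≤ R * P := by positivity
          linarith
      _ = (Y : ℝ) ^ 2 := by ring
  have hD3 : ((N / z : ℕ) : ℝ) ^ 2 * P ≤ N * Y := by
    calc ((N / z : ℕ) : ℝ) ^ 2 * P ≤ (R ^ 2) ^ 2 * P := by gcongr
      _ = R ^ 3 * (R * P) := by ring
      _ ≤ N * Y := by
          rw [hR3]
          apply mul_le_mul_of_nonneg_left _ hN0'.le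
          have : 0 ≤ R * P := by positivity
          linarith
  have hzP : (z : ℝ) * P ≤ Y := by
    calc (z : ℝ) * P ≤ 2 * R * P := by gcongr
      _ = 2 * (R * P) := by ring
      _ ≤ Y := hPY
  -- the bounds for the pieces
  obtain ⟨δ, hδ⟩ : ∃ δ : ℝ, δ = N * (Y : ℝ) ^ 2 / L ^ (U + 3) := ⟨_, rfl⟩
  have hδ0 : 0 ≤ δ := by rw [hδ]; positivity
  have hpI : ∀ i, Wn (cv (dec.a i) (WW z (dec.lg i))) N Y γ ≤ 4 * δ := by
    intro i
    refine (typeI hE1 hE2 hE3 hT1 hE K hN2 hL1 hPR hD1 hY1 hD2 hD3 hYN hM (dec.a i) (dec.lg i) (dec.ha i)).trans ?_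
    rw [hδ]
    exact t1_bound hL (by linarith) hC1L hN0'.le hP1 (by omega) (by omega)
  have hpII : ∀ i, Wn (cv (dec.α i) (dec.β i)) N Y γ ≤ δ := by
    intro i
    refine (typeII hE2 hC2 hT2 hE' hN2 hL1 hPn hzP hYN' hM (dec.α i) (dec.β i) (dec.hα i) (dec.hα1 i)
      (dec.hβ i)).trans ?_
    rw [hδ]
    exact t2_bound hL (by linarith) hC2L hN0'.le (by positivity) (log2_le hzN hz1 hL) hP1 (by omega)
  have hD : Wn (Dd dec) N Y γ ≤ 400000 * δ := by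
    have e1 : Dd dec = fun n => ∑ i, (fun i n => cv (dec.a i) (WW z (dec.lg i)) n + cv (dec.α i) (dec.β i) n) i n := rfl
    rw [e1]
    refine (hE2 dec.k _ N Y γ).trans ?_
    have hk : (dec.k : ℝ) ≤ 200 := by exact_mod_cast dec.hk
    calc (dec.k : ℝ) * ∑ i, Wn (fun n => cv (dec.a i) (WW z (dec.lg i)) n + cv (dec.α i) (dec.β i) n) N Y γ
        ≤ dec.k * ∑ _i : Fin dec.k, (10 * δ) := by
          apply mul_le_mul_of_nonneg_left _ (by positivity)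
          apply Finset.sum_le_sum
          intro i _
          refine (Wn_add hE2 _ _ N Y γ).trans ?_
          have := hpI i
          have := hpII i
          linarith
      _ = (dec.k : ℝ) * (dec.k * (10 * δ)) := by
          rw [Finset.sum_const, Finset.card_univ, Fintype.card_fin, nsmul_eq_mul]
      _ ≤ 200 * (200 * (10 * δ)) := by gcongr
      _ = 400000 * δ := by ring
  have he : Wn (fun n => if n ≤ P ^ 6 then g n - Dd dec n else 0) N Y γ ≤ δ := by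
    refine (small_part hE1 dec hg Y γ).trans ?_
    have hPC : (P : ℝ) ≤ L ^ (C + 1) := by
      refine hP2.trans ?_
      rw [pow_succ, mul_comm]
      gcongr
      linarith
    have h3 := e_bound hL hPR hPC
    rw [hδ, le_div_iff₀ (by positivity)]
    calc (Y : ℝ) ^ 2 * ((P : ℝ) ^ 6 * (L + 8000 * (P : ℝ) ^ 36 * (1 + L) ^ 2) ^ 2) * L ^ (U + 3)
        ≤ (Y : ℝ) ^ 2 * L ^ (78 * (C + 1) + 12) * L ^ (U + 3) := by gcongr
      _ = (Y : ℝ) ^ 2 * L ^ (78 * (C + 1) + 12 + (U + 3)) := by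
          rw [pow_add L (78 * (C + 1) + 12) (U + 3)]; ring
      _ ≤ (Y : ℝ) ^ 2 * N := by gcongr
      _ = N * (Y : ℝ) ^ 2 := by ring
  -- the conclusion
  have hgd : ∀ n ∈ Icc 1 N, g n = (if n ≤ P ^ 6 then g n - Dd dec n else 0) + Dd dec n := by
    intro n hn
    by_cases h : n ≤ P ^ 6
    · rw [if_pos h]; ring
    · rw [if_neg h, zero_add]
      exact Dd_eq dec (by omega) (Finset.mem_Icc.mp hn).2
  rw [hE3 g (fun n => (if n ≤ P ^ 6 then g n - Dd dec n else 0) + Dd dec n) N Y γ hgd]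
  refine (Wn_add hE2 _ _ N Y γ).trans ?_
  calc 2 * (Wn (fun n => if n ≤ P ^ 6 then g n - Dd dec n else 0) N Y γ + Wn (fun n => Dd dec n) N Y γ)
      ≤ 2 * (δ + 400000 * δ) := by
        have : Wn (fun n => Dd dec n) N Y γ ≤ 400000 * δ := hD
        linarith
    _ = 800002 * δ := by ring
    _ ≤ L ^ 3 * δ := by
        apply mul_le_mul_of_nonneg_right _ hδ0
        have : L ≤ L ^ 3 := le_self_pow₀ hL1 (by norm_num)
        linarith
    _ = N * (Y : ℝ) ^ 2 / L ^ U := by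
        rw [hδ, pow_add]
        field_simp

end Pool.Agent.V5helper44.MW
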