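import Mathlib
import Pool.Agent.V5helper51.MW.Stm

/-!
# Project MW, job MUS: first moments of `μ` and `Λ - Λ_z` along families of shifts in short intervals
-/

set_option autoImplicit false

namespace Pool.Agent.V5helper44.MW

open Finset
open Pool.Agent.V5helper51.MW
open Pool.Agent.H373R2.T7 (lamz Vz pz energy exI lamI lamzI)
open Pool.Agent.R460.SQ (DZ)

/-- the statement `S_FAM` for given `p`, `B`, `K` -/
def FamAt (p B : ℕ) (K : ℝ) : Prop := ∀ (N Y A x : ℕ) (F G c : ℕ → ℂ) (s : ℕ → ℤ) (c₀ : ℤ) (R η S2 : ℝ),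
  1 ≤ Y → Y ≤ N → 1 ≤ x → (∀ γ, Wn F N Y γ ≤ R * (N * (Y : ℝ) ^ 2)) → (∀ m ∈ Icc 1 x, |s m - c₀| ≤ B * Y) → |c₀| ≤ B * N →
  A ≤ B * N → (∀ m, ‖c m‖ ≤ 1) → ∑ n ∈ Icc 1 N, ‖F n‖ ^ 2 ≤ S2 * N → 0 < η → 0 ≤ R →
  ‖∑ a ∈ Icc 1 A, ∑ m ∈ Icc 1 x, G a * c m * fN F N ((a : ℤ) + s m)‖ ^ 2 ≤
    K * (∑ a ∈ Icc 1 A, ‖G a‖ ^ 2) * (N * (x : ℝ) ^ 2) *
      (R * ((energy p x s : ℝ) * Y / (x : ℝ) ^ (2 * p)) / η ^ (2 * p) + η ^ 2 * S2)

/-- the first moment -/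
lemma first_moment {p B : ℕ} {K : ℝ} (hF : FamAt p B K) {N Y A x : ℕ} {F G : ℕ → ℂ} {s : ℕ → ℤ} {c₀ : ℤ} {R η S2 : ℝ}
    (hY : 1 ≤ Y) (hYN : Y ≤ N) (hx : 1 ≤ x) (hW : ∀ γ, Wn F N Y γ ≤ R * (N * (Y : ℝ) ^ 2))
    (hs : ∀ m ∈ Icc 1 x, |s m - c₀| ≤ B * Y) (hc₀ : |c₀| ≤ B * N) (hA : A ≤ B * N)
    (hS : ∑ n ∈ Icc 1 N, ‖F n‖ ^ 2 ≤ S2 * N) (hη : 0 < η) (hR : 0 ≤ R)
    (H : ℤ → ℂ) (hH : ∀ a ∈ Icc 1 A, ∀ m ∈ Icc 1 x, H ((a : ℤ) + s m) = fN F N ((a : ℤ) + s m)) :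
    (∑ m ∈ Icc 1 x, ‖∑ a ∈ Icc 1 A, G a * H ((a : ℤ) + s m)‖) ^ 2 ≤
    K * (∑ a ∈ Icc 1 A, ‖G a‖ ^ 2) * (N * (x : ℝ) ^ 2) *
      (R * ((energy p x s : ℝ) * Y / (x : ℝ) ^ (2 * p)) / η ^ (2 * p) + η ^ 2 * S2) := by
  set S : ℕ → ℂ := fun m => ∑ a ∈ Icc 1 A, G a * H ((a : ℤ) + s m) with hSd
  set c : ℕ → ℂ := fun m => (starRingEnd ℂ) (S m) / ‖S m‖ with hc
  have hc1 : ∀ m, ‖c m‖ ≤ 1 := by
    intro m
    rw [hc]
    simp only [norm_div, RCLike.norm_conj, Complex.norm_real, norm_norm]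
    exact div_self_le_one _
  have key := hF N Y A x F G c s c₀ R η S2 hY hYN hx hW hs hc₀ hA hc1 hS hη hR
  have heq : ∑ a ∈ Icc 1 A, ∑ m ∈ Icc 1 x, G a * c m * fN F N (a + s m) =
      ((∑ m ∈ Icc 1 x, ‖S m‖ : ℝ) : ℂ) := by
    have e0 : ∑ a ∈ Icc 1 A, ∑ m ∈ Icc 1 x, G a * c m * fN F N (a + s m) =
        ∑ a ∈ Icc 1 A, ∑ m ∈ Icc 1 x, G a * c m * H ((a : ℤ) + s m) := by
      apply sum_congr rfl
      intro a ha
      apply sum_congr rfl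
      intro m hm
      rw [hH a ha m hm]
    rw [e0, sum_comm]
    push_cast
    apply sum_congr rfl
    intro m _
    have e1 : ∑ a ∈ Icc 1 A, G a * c m * H ((a : ℤ) + s m) = c m * S m := by
      rw [hSd, mul_sum]
      apply sum_congr rfl
      intro a _
      ring
    rw [e1, hc]
    simp only
    by_cases h0 : ‖S m‖ = 0
    · rw [norm_eq_zero.1 h0]; simp
    · have h0' : ((‖S m‖ : ℝ) : ℂ) ≠ 0 := by exact_mod_cast h0
      rw [div_mul_eq_mul_div, mul_comm, Complex.mul_conj', pow_two]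
      field_simp
  rw [heq, Complex.norm_real, Real.norm_of_nonneg (sum_nonneg fun _ _ => norm_nonneg _)] at key
  exact key

lemma arith_fm {L K b N x Y En G2 : ℝ} {T C W U p : ℕ} (hL1 : 1 ≤ L) (hK : 0 ≤ K) (hb : 0 ≤ b)
    (hL : 2 * K * b ≤ L) (hN : 0 ≤ N) (hx : 0 < x) (hE0 : 0 ≤ En * Y)
    (hE : En * Y ≤ L ^ C * x ^ (2 * p)) (hG0 : 0 ≤ G2) (hG : G2 ≤ N * L ^ T) (hW : W = U + T + 2) {L' : ℝ} (hLL : L ≤ L') :
    K * G2 * ((b * N) * x ^ 2) * ((1 / L' ^ (C + 2 * p * W + 2 * W)) * (En * Y / x ^ (2 * p)) / (1 / L ^ W) ^ (2 * p) +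
      (1 / L ^ W) ^ 2 * L ^ 3) ≤ (N * x / L ^ U) ^ 2 := by
  have hL0 : 0 < L := by linarith
  have h1 : En * Y / x ^ (2 * p) ≤ L ^ C := by
    rw [div_le_iff₀ (by positivity)]
    exact hE
  have h1' : 0 ≤ En * Y / x ^ (2 * p) := by positivity
  have h2 : (1 / L' ^ (C + 2 * p * W + 2 * W)) * (En * Y / x ^ (2 * p)) / (1 / L ^ W) ^ (2 * p) ≤ 1 / L ^ (2 * W) := by
    calc (1 / L' ^ (C + 2 * p * W + 2 * W)) * (En * Y / x ^ (2 * p)) / (1 / L ^ W) ^ (2 * p)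
        ≤ (1 / L ^ (C + 2 * p * W + 2 * W)) * L ^ C / (1 / L ^ W) ^ (2 * p) := by gcongr
      _ = 1 / L ^ (2 * W) := by
          rw [div_pow, one_pow, ← pow_mul, pow_add, pow_add, show 2 * p * W = W * (2 * p) by ring]
          field_simp
  have h3 : (1 / L ^ W) ^ 2 * L ^ 3 = L ^ 3 / L ^ (2 * W) := by
    rw [div_pow, one_pow, ← pow_mul, mul_comm W 2]
    ring
  have h4 : 1 / L ^ (2 * W) ≤ L ^ 3 / L ^ (2 * W) := by
    gcongr
    exact one_le_pow₀ hL1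
  rw [h3]
  calc K * G2 * ((b * N) * x ^ 2) * ((1 / L' ^ (C + 2 * p * W + 2 * W)) * (En * Y / x ^ (2 * p)) / (1 / L ^ W) ^ (2 * p) +
        L ^ 3 / L ^ (2 * W)) ≤ K * (N * L ^ T) * ((b * N) * x ^ 2) * (L ^ 3 / L ^ (2 * W) + L ^ 3 / L ^ (2 * W)) := by
        have := h2.trans h4
        have hL'0 : 0 < L' := by linarith
        gcongr
    _ = (2 * K * b) * (L ^ T * L ^ 3 / L ^ (2 * W)) * (N * x) ^ 2 := by ring
    _ ≤ L * (L ^ T * L ^ 3 / L ^ (2 * W)) * (N * x) ^ 2 := by gcongr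
    _ = L ^ (T + 4) * (N * x) ^ 2 / L ^ (2 * W) := by ring
    _ ≤ (N * x / L ^ U) ^ 2 := by
        rw [div_pow, ← pow_mul, div_le_div_iff₀ (by positivity) (by positivity)]
        calc L ^ (T + 4) * (N * x) ^ 2 * L ^ (U * 2) = (N * x) ^ 2 * L ^ (T + 4 + U * 2) := by
              rw [pow_add L (T + 4)]; ring
          _ ≤ (N * x) ^ 2 * L ^ (2 * W) := by
              gcongr
              omega

lemma ev_L2 (b : ℝ) : ∃ N₀ : ℕ, ∀ N : ℕ, N₀ ≤ N → b ≤ Real.log N := by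
  have t1 : Filter.Tendsto (fun N : ℕ => Real.log N) Filter.atTop Filter.atTop :=
    Real.tendsto_log_atTop.comp tendsto_natCast_atTop_atTop
  exact Filter.eventually_atTop.1 (t1.eventually_ge_atTop b)

lemma log_bN {b N : ℕ} (hb : 1 ≤ b) (hN : 1 ≤ N) (h : Real.log b ≤ Real.log N) :
    Real.log N ≤ Real.log ((b * N : ℕ) : ℝ) ∧ Real.log ((b * N : ℕ) : ℝ) ≤ 2 * Real.log N := by
  have hb0 : (0 : ℝ) < b := by exact_mod_cast hb
  have hN0 : (0 : ℝ) < N := by exact_mod_cast hN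
  rw [Nat.cast_mul, Real.log_mul hb0.ne' hN0.ne']
  have : 0 ≤ Real.log (b : ℝ) := Real.log_natCast_nonneg b
  constructor <;> linarith

lemma Y_bound {b N C Y : ℕ} (hb : 1 ≤ b) (hN : 1 ≤ N) (h : Real.log b ≤ Real.log N)
    (hL : (b : ℝ) * 2 ^ C ≤ Real.log N) (hY : (N : ℝ) ^ (1 / 3 : ℝ) * Real.log N ^ (C + 1) ≤ Y) :
    ((b * N : ℕ) : ℝ) ^ (1 / 3 : ℝ) * Real.log ((b * N : ℕ) : ℝ) ^ C ≤ Y := by
  obtain ⟨h1, h2⟩ := log_bN hb hN h
  have hb1 : (1 : ℝ) ≤ b := by exact_mod_cast hb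
  have hL0 : 0 ≤ Real.log (N : ℝ) := Real.log_natCast_nonneg N
  refine le_trans ?_ hY
  have h3 : ((b * N : ℕ) : ℝ) ^ (1 / 3 : ℝ) ≤ b * (N : ℝ) ^ (1 / 3 : ℝ) := by
    rw [Nat.cast_mul, Real.mul_rpow (by positivity) (by positivity)]
    apply mul_le_mul_of_nonneg_right _ (by positivity)
    calc (b : ℝ) ^ (1 / 3 : ℝ) ≤ (b : ℝ) ^ (1 : ℝ) := Real.rpow_le_rpow_of_exponent_le hb1 (by norm_num)
      _ = b := Real.rpow_one _
  calc ((b * N : ℕ) : ℝ) ^ (1 / 3 : ℝ) * Real.log ((b * N : ℕ) : ℝ) ^ C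
      ≤ (b * (N : ℝ) ^ (1 / 3 : ℝ)) * (2 * Real.log N) ^ C := by
        gcongr
    _ = (N : ℝ) ^ (1 / 3 : ℝ) * ((b * 2 ^ C) * Real.log N ^ C) := by rw [mul_pow]; ring
    _ ≤ (N : ℝ) ^ (1 / 3 : ℝ) * (Real.log N * Real.log N ^ C) := by gcongr
    _ = _ := by rw [pow_succ]; ring

lemma shift_le {B N Y A x : ℕ} {s : ℕ → ℤ} {c₀ : ℤ} (hYN : Y ≤ N) (hc₀ : |c₀| ≤ B * N)
    (hs : ∀ m ∈ Icc 1 x, |s m - c₀| ≤ B * Y) (hA : A ≤ B * N) {a m : ℕ} (ha : a ∈ Icc 1 A) (hm : m ∈ Icc 1 x) :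
    (a : ℤ) + s m ≤ (((3 * B + 1) * N : ℕ) : ℤ) := by
  have h1 := (abs_le.1 (hs m hm)).2
  have h2 := (abs_le.1 hc₀).2
  have h3 : (a : ℤ) ≤ B * N := by exact_mod_cast (Finset.mem_Icc.mp ha).2.trans hA
  have h4 : (B : ℤ) * Y ≤ B * N := by exact_mod_cast Nat.mul_le_mul_left B hYN
  push_cast
  have h5 : (0 : ℤ) ≤ N := by positivity
  linarith

/-- the choice of the parameters, common to both theorems -/
lemma fm_choice {p B : ℕ} {K : ℝ} (hK : 1 ≤ K) (hF : FamAt p B K) {T C W U : ℕ} (hW : W = U + T + 2)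
    {N Y A x : ℕ} {F g : ℕ → ℂ} {s : ℕ → ℤ} {c₀ : ℤ} (hN : 1 ≤ N) (hY : 1 ≤ Y) (hYN : Y ≤ N)
    (hL1 : 1 ≤ Real.log N) (hL2 : 2 * K * (3 * B + 1 : ℕ) ≤ Real.log N)
    (hL3 : Real.log ((3 * B + 1 : ℕ) : ℝ) ≤ Real.log N)
    (hWn : ∀ γ, Wn F ((3 * B + 1) * N) Y γ ≤ (((3 * B + 1) * N : ℕ) : ℝ) * (Y : ℝ) ^ 2 /
      Real.log (((3 * B + 1) * N : ℕ) : ℝ) ^ (C + 2 * p * W + 2 * W))
    (hs : ∀ m ∈ Icc 1 x, |s m - c₀| ≤ B * Y) (hc₀ : |c₀| ≤ B * N) (hA : A ≤ B * N)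
    (hE : (energy p x s : ℝ) * Y ≤ Real.log N ^ C * (x : ℝ) ^ (2 * p))
    (hS : ∀ n ∈ Icc 1 ((3 * B + 1) * N), ‖F n‖ ^ 2 ≤ Real.log N ^ 3)
    (hg : ∑ a ∈ Icc 1 A, ‖g a‖ ^ 2 ≤ N * Real.log N ^ T)
    (H : ℤ → ℂ) (hH : ∀ k : ℤ, k ≤ (((3 * B + 1) * N : ℕ) : ℤ) → H k = fN F ((3 * B + 1) * N) k) :
    ∑ m ∈ Icc 1 x, ‖∑ a ∈ Icc 1 A, g a * H ((a : ℤ) + s m)‖ ≤ N * x / Real.log N ^ U := by
  rcases Nat.eq_zero_or_pos x with hx | hx
  · rw [hx]; simp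
  set L := Real.log N with hLd
  have hL0 : 0 < L := by linarith
  obtain ⟨b, hb⟩ : ∃ b : ℕ, b = 3 * B + 1 := ⟨_, rfl⟩
  rw [← hb] at hL2 hL3 hWn hS hH
  obtain ⟨h1, h2⟩ := log_bN (by omega : 1 ≤ b) hN hL3
  have hb1 : 1 ≤ b := by omega
  have hNbN : N ≤ b * N := Nat.le_mul_of_pos_left _ hb1
  have hx0 : (0 : ℝ) < x := by exact_mod_cast hx
  have hbN : (B : ℤ) * N ≤ B * (b * N : ℕ) := by
    have : B * N ≤ B * (b * N) := Nat.mul_le_mul_left _ hNbN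
    exact_mod_cast this
  have hfm := first_moment hF (N := b * N) (Y := Y) (A := A) (x := x) (F := F) (G := g) (s := s) (c₀ := c₀)
    (R := 1 / Real.log ((b * N : ℕ) : ℝ) ^ (C + 2 * p * W + 2 * W)) (η := 1 / L ^ W) (S2 := L ^ 3)
    hY (hYN.trans hNbN) hx
    (by
      intro γ
      refine (hWn γ).trans (le_of_eq ?_)
      ring)
    hs (hc₀.trans hbN) (hA.trans (Nat.mul_le_mul_left _ hNbN))
    (by
      refine (Finset.sum_le_sum hS).trans (le_of_eq ?_)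
      rw [Finset.sum_const, Nat.card_Icc, nsmul_eq_mul]
      simp
      ring)
    (by positivity) (by
      have : 0 ≤ Real.log ((b * N : ℕ) : ℝ) := Real.log_natCast_nonneg _
      positivity)
    H (by
      intro a ha m hm
      apply hH
      rw [hb]
      exact shift_le hYN hc₀ hs hA ha hm)
  have har := arith_fm (L := L) (K := K) (b := (b : ℝ)) (N := (N : ℝ)) (x := (x : ℝ)) (Y := (Y : ℝ))
    (En := (energy p x s : ℝ)) (G2 := ∑ a ∈ Icc 1 A, ‖g a‖ ^ 2) (T := T) (C := C) (W := W) (U := U) (p := p)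
    hL1 (by linarith) (by positivity) hL2 (by positivity) hx0 (by positivity) hE
    (Finset.sum_nonneg fun _ _ => by positivity) hg hW h1
  have hfin : (∑ m ∈ Icc 1 x, ‖∑ a ∈ Icc 1 A, g a * H ((a : ℤ) + s m)‖) ^ 2 ≤ (N * x / L ^ U) ^ 2 := by
    refine hfm.trans (le_trans (le_of_eq ?_) har)
    push_cast
    ring
  exact le_of_pow_le_pow_left₀ (by norm_num) (by positivity) hfin

theorem mus (hM : S_MWM) (hF : S_FAM) : S_MUS := by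
  intro p B C T U hp
  obtain ⟨K, hK, hFK⟩ := hF p B hp
  obtain ⟨W, hW⟩ : ∃ W, W = U + T + 2 := ⟨_, rfl⟩
  obtain ⟨C', N1, hM'⟩ := hM (C + 2 * p * W + 2 * W)
  obtain ⟨N2, hN2⟩ := ev_L2 (max (max 1 (2 * K * (3 * B + 1 : ℕ)))
    (max (Real.log ((3 * B + 1 : ℕ) : ℝ)) (((3 * B + 1 : ℕ) : ℝ) * 2 ^ C')))
  refine ⟨C' + 1, max (max N1 N2) 1, ?_⟩
  intro N hN Y hY hYN x s c₀ hc₀ hs hE A hA g hg
  have hN1 : N1 ≤ N := le_trans (le_trans (le_max_left _ _) (le_max_left _ _)) hN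
  have hL := hN2 N (le_trans (le_trans (le_max_right _ _) (le_max_left _ _)) hN)
  have hN0 : 1 ≤ N := (le_max_right _ _).trans hN
  have hL1 : 1 ≤ Real.log N := le_trans (le_trans (le_max_left _ _) (le_max_left _ _)) hL
  have hL2 : 2 * K * (3 * B + 1 : ℕ) ≤ Real.log N := le_trans (le_trans (le_max_right _ _) (le_max_left _ _)) hL
  have hL3 : Real.log ((3 * B + 1 : ℕ) : ℝ) ≤ Real.log N := le_trans (le_trans (le_max_left _ _) (le_max_right _ _)) hL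
  have hL4 : ((3 * B + 1 : ℕ) : ℝ) * 2 ^ C' ≤ Real.log N := le_trans (le_trans (le_max_right _ _) (le_max_right _ _)) hL
  have hNbN : N ≤ (3 * B + 1) * N := Nat.le_mul_of_pos_left _ (by omega)
  have hNr : (1 : ℝ) ≤ N := by exact_mod_cast hN0
  have hY1 : 1 ≤ Y := by
    have h1 : (0 : ℝ) < Y := by
      refine lt_of_lt_of_le ?_ hY
      positivity
    exact_mod_cast h1
  have hYb := Y_bound (by omega : 1 ≤ 3 * B + 1) hN0 hL3 hL4 hY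
  exact fm_choice hK hFK hW hN0 hY1 hYN hL1 hL2 hL3 (fun γ => hM' _ (hN1.trans hNbN) Y hYb (hYN.trans hNbN) γ)
    hs hc₀ hA hE (by
      intro n _
      have h1 : ‖mu n‖ ≤ 1 := by
        unfold mu
        rw [Complex.norm_intCast]
        exact_mod_cast ArithmeticFunction.abs_moebius_le_one
      calc ‖mu n‖ ^ 2 ≤ 1 := pow_le_one₀ (norm_nonneg _) h1
        _ ≤ Real.log N ^ 3 := one_le_pow₀ hL1) hg (exI mu) (by
      intro k hk
      unfold exI fN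
      by_cases h1 : 1 ≤ k
      · rw [if_pos h1, if_pos ⟨h1, hk⟩]
      · rw [if_neg h1, if_neg (fun h => h1 h.1)])

theorem las (hM : S_MWL) (hF : S_FAM) : S_LAS := by
  intro p B C T U hp
  obtain ⟨K, hK, hFK⟩ := hF p B hp
  obtain ⟨W, hW⟩ : ∃ W, W = U + T + 2 := ⟨_, rfl⟩
  obtain ⟨C', B', hM'⟩ := hM (C + 2 * p * W + 2 * W)
  refine ⟨C' + 1, B' + 1, fun E => ?_⟩
  obtain ⟨N1, hM''⟩ := hM' E
  obtain ⟨N2, hN2⟩ := ev_L2 (max (max 4 (2 * K * (3 * B + 1 : ℕ)))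
    (max (max (Real.log ((3 * B + 1 : ℕ) : ℝ)) (2 ^ B')) (((3 * B + 1 : ℕ) : ℝ) * 2 ^ C')))
  obtain ⟨N3, hN3⟩ := Pool.Agent.H373R2.T7.Vz_inv_small E
  refine ⟨max (max N1 N2) (max N3 1), ?_⟩
  intro N hN Y hY hYN x s c₀ hc₀ hs hE A hA z hz1 hz2 g hg
  have hN1 : N1 ≤ N := le_trans (le_trans (le_max_left _ _) (le_max_left _ _)) hN
  have hL := hN2 N (le_trans (le_trans (le_max_right _ _) (le_max_left _ _)) hN)
  have hN3' : N3 ≤ N := le_trans (le_trans (le_max_left _ _) (le_max_right _ _)) hN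
  have hN0 : 1 ≤ N := le_trans (le_trans (le_max_right _ _) (le_max_right _ _)) hN
  have hLge4 : 4 ≤ Real.log N := le_trans (le_trans (le_max_left _ _) (le_max_left _ _)) hL
  have hL1 : 1 ≤ Real.log N := by linarith
  have hL2 : 2 * K * (3 * B + 1 : ℕ) ≤ Real.log N := le_trans (le_trans (le_max_right _ _) (le_max_left _ _)) hL
  have hL3 : Real.log ((3 * B + 1 : ℕ) : ℝ) ≤ Real.log N :=
    le_trans (le_trans (le_trans (le_max_left _ _) (le_max_left _ _)) (le_max_right _ _)) hL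
  have hL5 : (2 : ℝ) ^ B' ≤ Real.log N :=
    le_trans (le_trans (le_trans (le_max_right _ _) (le_max_left _ _)) (le_max_right _ _)) hL
  have hL4 : ((3 * B + 1 : ℕ) : ℝ) * 2 ^ C' ≤ Real.log N := le_trans (le_trans (le_max_right _ _) (le_max_right _ _)) hL
  have hNbN : N ≤ (3 * B + 1) * N := Nat.le_mul_of_pos_left _ (by omega)
  have hNr : (1 : ℝ) ≤ N := by exact_mod_cast hN0
  have hY1 : 1 ≤ Y := by
    have h1 : (0 : ℝ) < Y := by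
      refine lt_of_lt_of_le ?_ hY
      positivity
    exact_mod_cast h1
  have hz : 1 ≤ z := by
    have : (1 : ℝ) ≤ z := (one_le_pow₀ hL1).trans hz1
    exact_mod_cast this
  have hVinv := hN3 N hN3' z hz hz2
  obtain ⟨hb1, hb2⟩ := log_bN (by omega : 1 ≤ 3 * B + 1) hN0 hL3
  set Lb := Real.log (((3 * B + 1) * N : ℕ) : ℝ) with hLb
  have hLb0 : 0 ≤ Lb := by linarith
  have hzb1 : Lb ^ B' ≤ z := by
    calc Lb ^ B' ≤ (2 * Real.log N) ^ B' := by gcongr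
      _ = 2 ^ B' * Real.log N ^ B' := mul_pow _ _ _
      _ ≤ Real.log N * Real.log N ^ B' := by gcongr
      _ = Real.log N ^ (B' + 1) := by ring
      _ ≤ z := hz1
  have hzb2 : (z : ℝ) ≤ Lb ^ E := hz2.trans (by gcongr)
  have hYb := Y_bound (by omega : 1 ≤ 3 * B + 1) hN0 hL3 hL4 hY
  have hlz : ∀ n, lamz z n ≤ Real.log N := by
    intro n
    unfold lamz
    split_ifs
    · exact hVinv
    · linarith
  exact fm_choice hK hFK hW hN0 hY1 hYN hL1 hL2 hL3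
    (fun γ => hM'' _ (hN1.trans hNbN) z hzb1 hzb2 (hVinv.trans hb1) Y hYb (hYN.trans hNbN) γ)
    hs hc₀ hA hE (by
      intro n hn
      rw [mem_Icc] at hn
      have h1 : ‖DZ z n‖ ≤ 2 * Real.log N := by
        unfold DZ
        rw [Complex.norm_real, Real.norm_eq_abs]
        have h5 : ArithmeticFunction.vonMangoldt n ≤ 2 * Real.log N := by
          refine ArithmeticFunction.vonMangoldt_le_log.trans (le_trans ?_ hb2)
          exact Real.log_le_log (by exact_mod_cast hn.1) (by exact_mod_cast hn.2)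
        have h6 : (0 : ℝ) ≤ ArithmeticFunction.vonMangoldt n := ArithmeticFunction.vonMangoldt_nonneg
        have h7 := Pool.Agent.H373R2.T7.lamz_nonneg z n
        have h8 := hlz n
        rw [abs_le]
        constructor <;> linarith
      calc ‖DZ z n‖ ^ 2 ≤ (2 * Real.log N) ^ 2 := pow_le_pow_left₀ (norm_nonneg _) h1 2
        _ = 4 * Real.log N ^ 2 := by ring
        _ ≤ Real.log N * Real.log N ^ 2 := by gcongr
        _ = Real.log N ^ 3 := by ring) hg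
    (fun k => ((lamI k - lamzI z k : ℝ) : ℂ)) (by
      intro k hk
      unfold lamI lamzI fN DZ
      by_cases h1 : 1 ≤ k
      · rw [if_pos h1, if_pos h1, if_pos ⟨h1, hk⟩]
      · rw [if_neg h1, if_neg h1, if_neg (fun h => h1 h.1)]
        simp)

end Pool.Agent.V5helper44.MW
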